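import Mathlib

set_option autoImplicit false
set_option linter.unusedSectionVars false

open Polynomial

namespace Pool.Agent.Helper53.PZ

variable {K : Type*} [Field K] [CharP K 2]

variable (K) in
/-- The elements with `x ^ (2 ^ n) = x`. -/
def G (n : ℕ) : Subfield K where
  carrier := {x | x ^ (2 ^ n) = x}
  mul_mem' := fun {x y} hx hy => by
    change (x * y) ^ (2 ^ n) = x * y
    rw [mul_pow, show x ^ (2 ^ n) = x from hx, show y ^ (2 ^ n) = y from hy]
  one_mem' := one_pow _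
  add_mem' := fun {x y} hx hy => by
    change (x + y) ^ (2 ^ n) = x + y
    rw [add_pow_char_pow, show x ^ (2 ^ n) = x from hx, show y ^ (2 ^ n) = y from hy]
  zero_mem' := zero_pow (by positivity)
  neg_mem' := fun {x} hx => by
    change (-x) ^ (2 ^ n) = -x
    rw [CharTwo.neg_eq, show x ^ (2 ^ n) = x from hx]
  inv_mem' := fun x hx => by
    change (x⁻¹) ^ (2 ^ n) = x⁻¹
    rw [inv_pow, show x ^ (2 ^ n) = x from hx]

lemma mem_G {n : ℕ} {x : K} : x ∈ G K n ↔ x ^ (2 ^ n) = x := Iff.rfl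

lemma G_pow_mem {m n : ℕ} {x : K} (hx : x ∈ G K n) : x ^ (2 ^ (n * m)) = x := by
  induction m with
  | zero => simp
  | succ m ih => rw [Nat.mul_succ, pow_add, pow_mul, ih, mem_G.1 hx]

lemma G_mono {m n : ℕ} (h : m ∣ n) : G K m ≤ G K n := by
  obtain ⟨l, rfl⟩ := h
  intro x hx
  exact G_pow_mem hx

lemma G_inf_aux (m n : ℕ) {x : K} (hm : x ∈ G K m) (hn : x ∈ G K n) : x ∈ G K (m.gcd n) := by
  induction m, n using Nat.gcd.induction with
  | H0 n => simpa using hn
  | H1 m n hpos ih =>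
    rw [Nat.gcd_rec]
    apply ih _ hm
    -- x ∈ G (n % m)
    have h1 : n % m + m * (n / m) = n := Nat.mod_add_div n m
    rw [mem_G] at hn ⊢
    have h2 : x ^ (2 ^ n) = x ^ (2 ^ (n % m)) := by
      conv_lhs => rw [← h1, pow_add, mul_comm, pow_mul]
      rw [G_pow_mem hm]
    rw [← h2, hn]

variable [IsAlgClosed K]

lemma card_G {n : ℕ} (hn : n ≠ 0) : Nat.card (G K n) = 2 ^ n := by
  classical
  have h1 : (X ^ (2 ^ n) - X : K[X]).Separable := galois_poly_separable 2 _ (dvd_pow_self 2 hn)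
  have hne : (X ^ (2 ^ n) - X : K[X]) ≠ 0 :=
    FiniteField.X_pow_card_pow_sub_X_ne_zero K hn (by norm_num)
  have h2 : Fintype.card ((X ^ (2 ^ n) - X : K[X]).rootSet K) = 2 ^ n := by
    rw [card_rootSet_eq_natDegree h1 (IsAlgClosed.splits_domain _)]
    exact FiniteField.X_pow_card_pow_sub_X_natDegree_eq K hn (by norm_num)
  rw [← h2, ← Nat.card_eq_fintype_card]
  apply Nat.card_congr
  refine Equiv.subtypeEquivRight ?_
  intro x
  rw [mem_rootSet, mem_G]
  simp only [map_sub, map_pow, aeval_X, sub_eq_zero]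
  exact ⟨fun h => ⟨hne, h⟩, fun h => h.2⟩

lemma finite_G {n : ℕ} (hn : n ≠ 0) : Finite (G K n) := by
  apply Nat.finite_of_card_ne_zero
  rw [card_G hn]
  positivity

end Pool.Agent.Helper53.PZ
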