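import Pool.Agent.Helper53.PZ9

set_option autoImplicit false
set_option linter.unusedSectionVars false

open Polynomial

namespace Pool.Agent.Helper53.PZ

/-- The signs. -/
def sg (a b c n : ℕ) (e : ℕ) : ℤ :=
  if n ≤ e ∧ e < n + c then (-1) ^ (a - (e - n) / b) else 0

lemma sg_abs (a b c n e : ℕ) : |sg a b c n e| ≤ 1 := by
  unfold sg
  split_ifs
  · rw [abs_pow, abs_neg, abs_one, one_pow]
  · simp

/-- The linear functional attached to the signs. -/
noncomputable def Lam (s : ℕ → ℤ) : ℤ[X] →ₗ[ℤ] ℤ :=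
  Polynomial.lsum (fun e => LinearMap.mulLeft ℤ (s e))

lemma Lam_apply (s : ℕ → ℤ) (P : ℤ[X]) : Lam s P = P.sum (fun e c => s e * c) := by
  rw [Lam, Polynomial.lsum_apply]
  rfl

lemma Lam_X_pow (s : ℕ → ℤ) (e : ℕ) : Lam s (X ^ e) = s e := by
  rw [Lam_apply, ← Polynomial.monomial_one_right_eq_X_pow, Polynomial.sum_monomial_index]
  · ring
  · ring

lemma Lam_X_pow_mul (s : ℕ → ℤ) (m : ℕ) (hs : ∀ e, m ≤ e → s e = 0) (R : ℤ[X]) :
    Lam s (X ^ m * R) = 0 := by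
  rw [Lam_apply, Polynomial.sum]
  apply Finset.sum_eq_zero
  intro e _
  by_cases h : m ≤ e
  · rw [hs e h, zero_mul]
  · rw [coeff_X_pow_mul', if_neg h, mul_zero]

lemma Lam_prod (a : ℕ) (n : ℕ) :
    Lam (sg a (a ^ 2 + 1) (a * (a ^ 2 + 1) + 1) n)
      (X ^ n * (∏ i ∈ Finset.range a, (X ^ (a ^ 2 + 1) - X ^ i))) = 2 ^ a := by
  classical
  rw [Finset.prod_sub, Finset.mul_sum, map_sum]
  have h1 : ∀ t ∈ (Finset.range a).powerset,
      Lam (sg a (a ^ 2 + 1) (a * (a ^ 2 + 1) + 1) n)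
        (X ^ n * ((-1) ^ t.card * (∏ _i ∈ Finset.range a \ t, (X : ℤ[X]) ^ (a ^ 2 + 1)) *
          ∏ i ∈ t, (X : ℤ[X]) ^ i)) = 1 := by
    intro t ht
    rw [Finset.mem_powerset] at ht
    have htc : t.card ≤ a := by
      have := Finset.card_le_card ht
      rwa [Finset.card_range] at this
    have hcard : (Finset.range a \ t).card = a - t.card := by
      rw [Finset.card_sdiff_of_subset ht, Finset.card_range]
    rw [Finset.prod_const, hcard, Finset.prod_pow_eq_pow_sum, ← pow_mul, mul_assoc ((-1 : ℤ[X]) ^ t.card),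
      ← pow_add]
    have e1 : (X : ℤ[X]) ^ n * ((-1) ^ t.card * X ^ ((a ^ 2 + 1) * (a - t.card) + ∑ i ∈ t, i)) =
        ((-1 : ℤ) ^ t.card) • (X : ℤ[X]) ^ (n + ((a ^ 2 + 1) * (a - t.card) + ∑ i ∈ t, i)) := by
      rw [pow_add X n, zsmul_eq_mul]
      push_cast
      ring
    rw [e1, map_smul, Lam_X_pow]
    have hsum : ∑ i ∈ t, i < a ^ 2 + 1 := by
      have h2 : ∑ i ∈ t, i ≤ ∑ i ∈ Finset.range a, i := Finset.sum_le_sum_of_subset ht
      have h3 : ∑ i ∈ Finset.range a, i ≤ ∑ _i ∈ Finset.range a, a := by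
        apply Finset.sum_le_sum
        intro i hi
        exact (Finset.mem_range.mp hi).le
      rw [Finset.sum_const, Finset.card_range, smul_eq_mul] at h3
      nlinarith
    have hdiv : ((n + ((a ^ 2 + 1) * (a - t.card) + ∑ i ∈ t, i)) - n) / (a ^ 2 + 1) =
        a - t.card := by
      rw [Nat.add_sub_cancel_left, Nat.mul_add_div (by positivity), Nat.div_eq_of_lt hsum,
        Nat.add_zero]
    have hlt : (a ^ 2 + 1) * (a - t.card) + ∑ i ∈ t, i < a * (a ^ 2 + 1) + 1 := by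
      rcases Nat.eq_zero_or_pos t.card with h0 | h0
      · rw [Finset.card_eq_zero] at h0
        subst h0
        simp [mul_comm]
      · have h4 : (a ^ 2 + 1) * (a - t.card) ≤ (a ^ 2 + 1) * (a - 1) :=
          Nat.mul_le_mul_left _ (by omega)
        have h5 : (a ^ 2 + 1) * (a - 1) + (a ^ 2 + 1) = a * (a ^ 2 + 1) := by
          obtain ⟨a', rfl⟩ : ∃ a', a = a' + 1 := ⟨a - 1, by omega⟩
          rw [Nat.add_sub_cancel]
          ring
        omega
    rw [sg, if_pos ⟨by omega, by omega⟩, hdiv]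
    have : a - (a - t.card) = t.card := by omega
    rw [this, smul_eq_mul, ← mul_pow]
    simp
  rw [Finset.sum_congr rfl h1, Finset.sum_const, Finset.card_powerset, Finset.card_range]
  simp

/-- The lower bound for the total degree. -/
lemma card_lower (a : ℕ) (ha : 0 < a) (A B : Multiset ℂ)
    (h : ∀ k : ℕ, 0 < k →
      (((Ppoly a (a ^ 2 + 1) (a * (a ^ 2 + 1) + 1)).eval ((2:ℤ)^k) : ℤ) : ℂ) =
      (B.map (fun b => b ^ k)).sum - (A.map (fun a => a ^ k)).sum) :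
    2 ^ a ≤ Multiset.card A + Multiset.card B := by
  set b := a ^ 2 + 1 with hb
  set c := a * b + 1 with hc
  have h1 := functional_bound _ A B h (sg a b c (b * c)) (sg_abs _ _ _ _)
  rw [← Lam_apply] at h1
  obtain ⟨R, hR⟩ := Ppoly_eq (a := a) (b := b) (c := c) ha
  rw [hR, map_add, Lam_prod, Lam_X_pow_mul, add_zero] at h1
  · exact_mod_cast h1
  · intro e he
    rw [sg, if_neg]
    omega

/-- The parameters can be chosen large. -/
lemma exists_large (C : ℕ) : ∃ a : ℕ, 0 < a ∧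
    (C * (a * (a ^ 2 + 1) * (a * (a ^ 2 + 1) + 1))) ^ C < 2 ^ a := by
  have h1 := tendsto_pow_const_div_const_pow_of_one_lt (6 * C) (r := (2:ℝ)) one_lt_two
  have h2 : Filter.Tendsto (fun n : ℕ => ((6 * C : ℕ) : ℝ) ^ C * ((n:ℝ) ^ (6 * C) / 2 ^ n))
      Filter.atTop (nhds 0) := by
    have := h1.const_mul (((6 * C : ℕ) : ℝ) ^ C)
    rwa [mul_zero] at this
  have h3 := h2.eventually (gt_mem_nhds (zero_lt_one))
  obtain ⟨a, ha1, ha2⟩ := (h3.and (Filter.eventually_gt_atTop 0)).exists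
  refine ⟨a, ha2, ?_⟩
  have h4 : a * (a ^ 2 + 1) * (a * (a ^ 2 + 1) + 1) ≤ 6 * a ^ 6 := by
    have e1 : a ^ 2 + 1 ≤ 2 * a ^ 2 := by nlinarith
    have e2 : a * (a ^ 2 + 1) ≤ 2 * a ^ 3 := by nlinarith
    have e3 : 1 ≤ a ^ 3 := Nat.one_le_pow _ _ ha2
    have e4 : a * (a ^ 2 + 1) + 1 ≤ 3 * a ^ 3 := by omega
    calc a * (a ^ 2 + 1) * (a * (a ^ 2 + 1) + 1) ≤ (2 * a ^ 3) * (3 * a ^ 3) :=
          Nat.mul_le_mul e2 e4
      _ = 6 * a ^ 6 := by ring
  have h5 : (C * (a * (a ^ 2 + 1) * (a * (a ^ 2 + 1) + 1))) ^ C ≤ (6 * C) ^ C * a ^ (6 * C) := by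
    calc _ ≤ (C * (6 * a ^ 6)) ^ C := Nat.pow_le_pow_left (Nat.mul_le_mul_left _ h4) _
      _ = (6 * C) ^ C * a ^ (6 * C) := by
        rw [pow_mul a 6 C, ← mul_pow]; congr 1; ring
  have h6 : (((6 * C) ^ C * a ^ (6 * C) : ℕ) : ℝ) < ((2 ^ a : ℕ) : ℝ) := by
    push_cast
    push_cast at ha1
    rw [← mul_div_assoc, div_lt_one (by positivity)] at ha1
    exact ha1
  exact lt_of_le_of_lt h5 (by exact_mod_cast h6)

end Pool.Agent.Helper53.PZ
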