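import Pool.Agent.Helper53.PZ1

set_option autoImplicit false
set_option linter.unusedSectionVars false

open Polynomial

namespace Pool.Agent.Helper53.PZ

variable {K : Type*} [Field K] [CharP K 2]

/-- The relative trace from `G (m * n)` to `G m`. -/
def tr (m n : ℕ) (x : K) : K := ∑ i ∈ Finset.range n, x ^ (2 ^ (m * i))

lemma tr_add (m n : ℕ) (x y : K) : tr m n (x + y) = tr m n x + tr m n y := by
  simp only [tr, ← Finset.sum_add_distrib]
  exact Finset.sum_congr rfl (fun i _ => by rw [add_pow_char_pow])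

lemma tr_zero (m n : ℕ) : tr m n (0 : K) = 0 := by
  simp only [tr]
  exact Finset.sum_eq_zero (fun i _ => zero_pow (by positivity))

lemma tr_smul {m : ℕ} (n : ℕ) {c : K} (hc : c ∈ G K m) (x : K) :
    tr m n (c * x) = c * tr m n x := by
  simp only [tr, Finset.mul_sum]
  exact Finset.sum_congr rfl (fun i _ => by rw [mul_pow, G_pow_mem hc])

lemma tr_succ (m n : ℕ) (x : K) : tr m (n + 1) x = tr m n x + x ^ (2 ^ (m * n)) := by
  rw [tr, Finset.sum_range_succ]; rfl

lemma tr_pow (m n l : ℕ) (x : K) : (tr m n x) ^ (2 ^ l) = tr m n (x ^ (2 ^ l)) := by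
  induction n with
  | zero => simp only [tr, Finset.range_zero, Finset.sum_empty]; exact zero_pow (by positivity)
  | succ n ih =>
    rw [tr_succ, tr_succ, add_pow_char_pow, ih, ← pow_mul, ← pow_mul, mul_comm (2 ^ (m * n))]

lemma tr_shift (m n : ℕ) (x : K) :
    tr m n (x ^ (2 ^ m)) + x = tr m n x + x ^ (2 ^ (m * n)) := by
  induction n with
  | zero => simp [tr]
  | succ n ih =>
    rw [tr_succ, tr_succ, add_right_comm, ih, ← pow_mul, ← pow_add, Nat.mul_succ, add_comm (m * n) m]

lemma tr_mem {m n : ℕ} {x : K} (hx : x ∈ G K (m * n)) : tr m n x ∈ G K m := by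
  rw [mem_G, tr_pow]
  have h1 := tr_shift m n x
  rw [mem_G.1 hx] at h1
  exact add_right_cancel h1

lemma tr_mem' {m n l : ℕ} {x : K} (hx : x ∈ G K l) : tr m n x ∈ G K l := by
  rw [mem_G, tr_pow, mem_G.1 hx]

lemma tr_tr (t a : ℕ) (x : K) : tr 1 (t * a) x = tr 1 t (tr t a x) := by
  induction a with
  | zero => simp only [Nat.mul_zero, tr, Finset.range_zero, Finset.sum_empty, one_mul]
            exact (Finset.sum_eq_zero (fun i _ => zero_pow (by positivity))).symm
  | succ a ih =>
    rw [tr_succ, tr_add, ← ih]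
    simp only [tr, one_mul]
    rw [Nat.mul_succ, Finset.sum_range_add]
    congr 1
    exact Finset.sum_congr rfl (fun i _ => by rw [← pow_mul, ← pow_add])

variable [IsAlgClosed K]

lemma card_tr_zero_le {m n : ℕ} (hm : 0 < m) (hn : 0 < n) :
    Nat.card {x : K // tr m n x = 0} ≤ 2 ^ (m * (n - 1)) ∧ Finite {x : K // tr m n x = 0} := by
  classical
  set P : K[X] := ∑ i ∈ Finset.range n, X ^ (2 ^ (m * i)) with hP
  have hev : ∀ x, P.eval x = tr m n x := by
    intro x
    simp [hP, tr, eval_finsetSum]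
  obtain ⟨n, rfl⟩ : ∃ n', n = n' + 1 := ⟨n - 1, by omega⟩
  have hdeg : P.natDegree = 2 ^ (m * n) := by
    rw [hP, Finset.sum_range_succ, natDegree_add_eq_right_of_degree_lt]
    · simp
    · rw [degree_X_pow]
      apply lt_of_le_of_lt (degree_sum_le _ _)
      rw [Finset.sup_lt_iff (by exact WithBot.bot_lt_coe _)]
      intro i hi
      rw [degree_X_pow]
      have : 2 ^ (m * i) < 2 ^ (m * n) := by
        apply Nat.pow_lt_pow_right (by norm_num)
        exact Nat.mul_lt_mul_of_pos_left (Finset.mem_range.1 hi) hm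
      exact_mod_cast this
  have hP0 : P ≠ 0 := by
    intro h0
    rw [h0, natDegree_zero] at hdeg
    have : 0 < 2 ^ (m * n) := by positivity
    omega
  have hset : {x : K | tr m n.succ x = 0} = P.rootSet K := by
    ext x
    rw [mem_rootSet]
    simp only [Set.mem_ofPred_eq, ← hev, coe_aeval_eq_eval]
    exact ⟨fun h => ⟨hP0, h⟩, fun h => h.2⟩
  have hfin : Set.Finite {x : K | tr m n.succ x = 0} := by
    rw [hset]; exact Set.toFinite _
  refine ⟨?_, hfin⟩
  have : Nat.card {x : K // tr m n.succ x = 0} = (P.rootSet K).ncard := by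
    rw [← hset]; rfl
  rw [this, Nat.add_sub_cancel]
  calc (P.rootSet K).ncard ≤ P.natDegree := by
        rw [rootSet, Set.ncard_coe_finset]
        refine (Multiset.toFinset_card_le _).trans ?_
        refine (card_roots' _).trans ?_
        exact natDegree_map_le
    _ = _ := hdeg

end Pool.Agent.Helper53.PZ
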