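import Pool.Agent.Helper53.PZ2

set_option autoImplicit false
set_option linter.unusedSectionVars false

open Polynomial

namespace Pool.Agent.Helper53.PZ

variable {K : Type*} [Field K] [CharP K 2]

/-- `z ↦ z ^ 2 + z` -/
def wp (n : ℕ) : G K n →+ G K n where
  toFun z := z ^ 2 + z
  map_zero' := by simp
  map_add' x y := by
    apply Subtype.ext
    push_cast
    have := add_pow_char (x : K) (y : K) (p := 2)
    rw [this]; ring

/-- the absolute trace as a homomorphism -/
def trH (n : ℕ) : G K n →+ K where
  toFun z := tr 1 n (z : K)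
  map_zero' := tr_zero 1 n
  map_add' x y := tr_add 1 n (x : K) (y : K)

lemma trH_wp (n : ℕ) (z : G K n) : trH n (wp n z) = 0 := by
  change tr 1 n ((z : K) ^ 2 + (z : K)) = 0
  rw [tr_add]
  have h1 := tr_shift 1 n (z : K)
  rw [pow_one, one_mul, mem_G.1 z.2] at h1
  rw [add_right_cancel h1]
  exact CharTwo.add_self_eq_zero _

lemma card_ker_wp (n : ℕ) : Nat.card (wp (K := K) n).ker = 2 := by
  have h1 : (wp (K := K) n).ker = ({0, 1} : Set (G K n)) := by
    ext z
    simp only [SetLike.mem_coe, AddMonoidHom.mem_ker, Set.mem_insert_iff, Set.mem_singleton_iff]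
    change z ^ 2 + z = 0 ↔ _
    constructor
    · intro h
      have : z * (z + 1) = 0 := by linear_combination h
      rcases mul_eq_zero.1 this with h2 | h2
      · left; exact h2
      · right
        have e : z = -1 := eq_neg_of_add_eq_zero_left h2
        rw [e]
        apply Subtype.ext
        push_cast
        exact CharTwo.neg_eq 1
    · rintro (rfl | rfl)
      · simp
      · apply Subtype.ext
        push_cast
        rw [one_pow]
        exact CharTwo.add_self_eq_zero _
  have h2 : Nat.card (wp (K := K) n).ker = Set.ncard ({0, 1} : Set (G K n)) := by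
    rw [← h1]; rfl
  rw [h2, Set.ncard_pair zero_ne_one]

variable [IsAlgClosed K]

lemma card_range_wp {n : ℕ} (hn : n ≠ 0) : 2 * Nat.card (wp (K := K) n).range = 2 ^ n := by
  have h1 := (wp (K := K) n).ker.card_mul_index
  rw [AddSubgroup.index_ker, card_ker_wp n, card_G hn] at h1
  exact h1

lemma range_wp {n : ℕ} (hn : n ≠ 0) : (wp (K := K) n).range = (trH (K := K) n).ker := by
  have : Finite (G K n) := finite_G hn
  have hle : (wp (K := K) n).range ≤ (trH (K := K) n).ker := by
    rintro _ ⟨z, rfl⟩
    exact trH_wp n z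
  apply AddSubgroup.eq_of_le_of_card_ge hle
  have h1 := card_range_wp (K := K) hn
  obtain ⟨h2, h3⟩ := card_tr_zero_le (K := K) (m := 1) (n := n) one_pos (by omega)
  have h4 : Nat.card (trH (K := K) n).ker ≤ Nat.card {x : K // tr 1 n x = 0} := by
    apply Nat.card_le_card_of_injective (fun z => (⟨(z.1 : K), z.2⟩ : {x : K // tr 1 n x = 0}))
    intro x y hxy
    apply Subtype.ext
    apply Subtype.ext
    exact congrArg (fun z : {x : K // tr 1 n x = 0} => (z : K)) hxy
  obtain ⟨m, rfl⟩ : ∃ m, n = m + 1 := ⟨n - 1, by omega⟩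
  rw [pow_succ] at h1
  rw [one_mul, Nat.add_sub_cancel] at h2
  omega

/-- the homomorphism `(t, z) ↦ z ^ 2 + z + v t` -/
def Phi (t a : ℕ) (v : G K (t * a)) : G K t × G K (t * a) →+ G K (t * a) where
  toFun x := wp (t * a) x.2 + v * ⟨x.1, G_mono (Dvd.intro a rfl) x.1.2⟩
  map_zero' := by
    apply Subtype.ext
    simp [wp]
  map_add' x y := by
    rw [Prod.snd_add, map_add]
    apply Subtype.ext
    simp only [Prod.fst_add, Subfield.coe_add, Subfield.coe_mul]
    ring

lemma card_Phi (t a : ℕ) (ht : 0 < t) (ha : 0 < a) (v : G K (t * a)) :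
    (tr t a (v : K) = 0 → Nat.card (Phi t a v).ker = 2 * 2 ^ t) ∧
    (tr t a (v : K) ≠ 0 → Nat.card (Phi t a v).ker = 2 ^ t) := by
  have hn : t * a ≠ 0 := by positivity
  have : Finite (G K (t * a)) := finite_G hn
  have : Finite (G K t) := finite_G ht.ne'
  have h1 := (Phi t a v).ker.card_mul_index
  rw [AddSubgroup.index_ker, Nat.card_prod, card_G hn, card_G ht.ne'] at h1
  have hwp := card_range_wp (K := K) hn
  have hle : (wp (K := K) (t * a)).range ≤ (Phi t a v).range := by
    rintro _ ⟨z, rfl⟩
    refine ⟨(0, z), ?_⟩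
    apply Subtype.ext
    simp [Phi]
  constructor
  · intro hv
    have h2 : (Phi t a v).range = (wp (K := K) (t * a)).range := by
      apply le_antisymm _ hle
      rw [range_wp hn]
      rintro _ ⟨x, rfl⟩
      rw [AddMonoidHom.mem_ker]
      change trH (t * a) (wp (t * a) x.2 + v * ⟨x.1, _⟩) = 0
      rw [map_add, trH_wp, zero_add]
      change tr 1 (t * a) ((v : K) * (x.1 : K)) = 0
      rw [tr_tr, mul_comm (v : K), tr_smul a x.1.2, hv, mul_zero, tr_zero]
    rw [h2] at h1
    have h3 : 0 < Nat.card (wp (K := K) (t * a)).range := Nat.card_pos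
    have h4 : Nat.card (Phi t a v).ker * Nat.card (wp (K := K) (t * a)).range =
        (2 * 2 ^ t) * Nat.card (wp (K := K) (t * a)).range := by
      rw [h1, ← hwp]; ring
    exact Nat.eq_of_mul_eq_mul_right h3 h4
  · intro hv
    have h2 : (Phi t a v).range = ⊤ := by
      have hne : (wp (K := K) (t * a)).range ≠ (Phi t a v).range := by
        intro heq
        -- then the trace vanishes on `T`
        have h5 : ∀ c : G K t, tr 1 t ((c : K) * tr t a (v : K)) = 0 := by
          intro c
          have h6 : Phi t a v (c, 0) ∈ (trH (K := K) (t * a)).ker := by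
            rw [← range_wp hn, heq]
            exact ⟨_, rfl⟩
          rw [AddMonoidHom.mem_ker] at h6
          change tr 1 (t * a) (((wp (t * a) (0 : G K (t * a)) + v * ⟨c, _⟩ : G K (t * a)) : K)) = 0 at h6
          rw [map_zero, zero_add] at h6
          change tr 1 (t * a) ((v : K) * (c : K)) = 0 at h6
          rwa [tr_tr, mul_comm (v : K), tr_smul a c.2] at h6
        have h7 : ∀ x : G K t, tr 1 t (x : K) = 0 := by
          intro x
          have h8 := h5 (⟨(x : K) / tr t a (v : K), (G K t).div_mem x.2 (tr_mem v.2)⟩)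
          simpa [div_mul_cancel₀ _ hv] using h8
        obtain ⟨h9, h10⟩ := card_tr_zero_le (K := K) (m := 1) (n := t) one_pos ht
        have h11 : Nat.card (G K t) ≤ Nat.card {x : K // tr 1 t x = 0} := by
          apply Nat.card_le_card_of_injective (fun z : G K t => (⟨(z : K), h7 z⟩ : {x : K // tr 1 t x = 0}))
          intro x y hxy
          apply Subtype.ext
          exact congrArg (fun z : {x : K // tr 1 t x = 0} => (z : K)) hxy
        rw [card_G ht.ne'] at h11
        have h12 : 2 ^ (1 * (t - 1)) < 2 ^ t := Nat.pow_lt_pow_right (by norm_num) (by omega)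
        omega
      have h13 : Nat.card (wp (K := K) (t * a)).range < Nat.card (Phi t a v).range := by
        by_contra hlt
        exact hne (AddSubgroup.eq_of_le_of_card_ge hle (not_lt.1 hlt))
      have h14 : Nat.card (Phi t a v).range ∣ 2 ^ (t * a) := by
        rw [← card_G (K := K) hn]
        exact (Phi t a v).range.card_addSubgroup_dvd_card
      apply AddSubgroup.eq_top_of_card_eq
      rw [card_G hn]
      obtain ⟨m, hm⟩ := h14
      rw [← hwp] at hm
      have h15 : m < 2 := by
        by_contra hge
        have : Nat.card (Phi t a v).range * 2 ≤ Nat.card (Phi t a v).range * m :=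
          Nat.mul_le_mul_left _ (not_lt.1 hge)
        omega
      interval_cases m
      · have : 0 < Nat.card (wp (K := K) (t * a)).range := Nat.card_pos
        omega
      · rw [mul_one] at hm
        rw [← hm, hwp]
    rw [h2] at h1
    have h3 : Nat.card (⊤ : AddSubgroup (G K (t * a))) = 2 ^ (t * a) := by
      rw [AddSubgroup.card_top, card_G hn]
    rw [h3] at h1
    exact Nat.eq_of_mul_eq_mul_right (by positivity) h1

end Pool.Agent.Helper53.PZ
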