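import Pool.Agent.Helper53.PZ3

set_option autoImplicit false
set_option linter.unusedSectionVars false

open Polynomial

namespace Pool.Agent.Helper53.PZ

variable {K : Type*} [Field K] [CharP K 2]

/-- Linear disjointness of finite fields of coprime degrees. -/
lemma LD {ι : Type*} {k a b : ℕ} (hab : a.Coprime b) {v : ι → K}
    (hv : ∀ i, v i ∈ G K (k * a)) (hlin : LinearIndependent (G K k) v) :
    LinearIndependent (G K (k * b)) v := by
  classical
  rw [linearIndependent_iff']
  intro s
  induction s using Finset.induction_on with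
  | empty => simp
  | insert j s hj ih =>
    intro g hg
    rw [Finset.sum_insert hj] at hg
    by_cases hgj : g j = 0
    · rw [hgj, zero_smul, zero_add] at hg
      intro i hi
      rcases Finset.mem_insert.1 hi with rfl | hi
      · exact hgj
      · exact ih g hg i hi
    · exfalso
      -- normalise
      set h : ι → G K (k * b) := fun i => g i / g j with hh
      have h1 : v j + ∑ i ∈ s, h i • v i = 0 := by
        have h2 : (g j)⁻¹ • (g j • v j + ∑ i ∈ s, g i • v i) = 0 := by rw [hg, smul_zero]
        rw [smul_add, inv_smul_smul₀ hgj, Finset.smul_sum] at h2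
        rw [← h2]
        congr 1
        apply Finset.sum_congr rfl
        intro i _
        rw [smul_smul, ← div_eq_inv_mul]
      have h2 : v j + ∑ i ∈ s, (h i) ^ (2 ^ (k * a)) • v i = 0 := by
        have h3 : (v j + ∑ i ∈ s, h i • v i) ^ (2 ^ (k * a)) = 0 ^ (2 ^ (k * a)) := by rw [h1]
        rw [zero_pow (by positivity), add_pow_char_pow, sum_pow_char_pow, mem_G.1 (hv j)] at h3
        rw [← h3]
        congr 1
        apply Finset.sum_congr rfl
        intro i _
        rw [Subfield.smul_def, Subfield.smul_def]
        simp only [smul_eq_mul, mul_pow, mem_G.1 (hv i)]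
        push_cast
        rfl
      have h3 : ∑ i ∈ s, ((h i) ^ (2 ^ (k * a)) - h i) • v i = 0 := by
        simp only [sub_smul, Finset.sum_sub_distrib]
        linear_combination h2 - h1
      have h4 := ih _ h3
      have h5 : ∀ i ∈ s, (h i : K) ∈ G K k := by
        intro i hi
        have h6 : (h i) ^ (2 ^ (k * a)) = h i := sub_eq_zero.1 (h4 i hi)
        have h7 : (h i : K) ∈ G K (k * a) := by
          rw [mem_G]
          exact_mod_cast congrArg Subtype.val h6
        have h8 := G_inf_aux _ _ h7 (h i).2
        rwa [Nat.gcd_mul_left, hab.gcd_eq_one, mul_one] at h8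
      rw [linearIndependent_iff'] at hlin
      have h9 := hlin (insert j s) (fun i => if hi : i ∈ s then ⟨h i, h5 i hi⟩ else 1) (by
        rw [Finset.sum_insert hj, dif_neg hj, one_smul]
        rw [← h1]
        congr 1
        apply Finset.sum_congr rfl
        intro i hi
        rw [dif_pos hi]
        rfl) j (Finset.mem_insert_self _ _)
      rw [dif_neg hj] at h9
      exact one_ne_zero h9

/-- `G (k * a)` as a vector space over `G k` -/
def GM (K : Type*) [Field K] [CharP K 2] (k a : ℕ) : Submodule (G K k) K where
  carrier := G K (k * a)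
  add_mem' := (G K (k * a)).add_mem
  zero_mem' := (G K (k * a)).zero_mem
  smul_mem' c _ hx := (G K (k * a)).mul_mem (G_mono (Dvd.intro a rfl) c.2) hx

variable [IsAlgClosed K]

lemma finrank_GM {k a : ℕ} (hk : 0 < k) (ha : 0 < a) : Module.finrank (G K k) (GM K k a) = a := by
  have : Finite (G K k) := finite_G hk.ne'
  have hfin : Finite (GM K k a) := finite_G (K := K) (n := k * a) (by positivity)
  have h1 : Nat.card (GM K k a) = 2 ^ (k * a) := card_G (K := K) (n := k * a) (by positivity)
  rw [Module.natCard_eq_pow_finrank (K := G K k), card_G hk.ne', ← pow_mul] at h1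
  have h2 := Nat.pow_right_injective (le_refl 2) h1
  exact Nat.eq_of_mul_eq_mul_left hk h2

variable (K) in
lemma exists_basis {k a : ℕ} (hk : 0 < k) (ha : 0 < a) :
    ∃ α : Fin a → K, (∀ i, α i ∈ G K (k * a)) ∧ LinearIndependent (G K k) α := by
  have : Finite (G K k) := finite_G hk.ne'
  have hfin : Finite (GM K k a) := finite_G (K := K) (n := k * a) (by positivity)
  have hfd : Module.Finite (G K k) (GM K k a) := inferInstance
  let B := Module.finBasisOfFinrankEq (G K k) (GM K k a) (finrank_GM hk ha)
  refine ⟨fun i => (B i : K), fun i => (B i).2, ?_⟩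
  exact B.linearIndependent.map' (GM K k a).subtype (Submodule.ker_subtype _)

/-- the coordinates with respect to the basis `α` -/
lemma comb_bijective {k a b : ℕ} (hk : 0 < k) (ha : 0 < a) (hb : 0 < b) (hab : a.Coprime b)
    {α : Fin a → K} (hα : ∀ i, α i ∈ G K (k * a)) (hlin : LinearIndependent (G K k) α) :
    ∃ e : (Fin a → G K (k * b)) ≃ G K (k * (a * b)),
      ∀ γ, (e γ : K) = ∑ j, (γ j : K) * α j := by
  have h1 := LD hab hα hlin
  have hmem : ∀ γ : Fin a → G K (k * b), ∑ j, (γ j : K) * α j ∈ G K (k * (a * b)) := by
    intro γ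
    apply sum_mem
    intro j _
    exact mul_mem (G_mono ⟨a, by ring⟩ (γ j).2) (G_mono ⟨b, by ring⟩ (hα j))
  have : Finite (G K (k * b)) := finite_G (by positivity)
  have : Finite (G K (k * (a * b))) := finite_G (by positivity)
  let f : (Fin a → G K (k * b)) → G K (k * (a * b)) := fun γ => ⟨_, hmem γ⟩
  have hinj : Function.Injective f := by
    intro γ γ' hγ
    have h2 : ∑ j, (γ j : K) * α j = ∑ j, (γ' j : K) * α j := congrArg Subtype.val hγ
    rw [Fintype.linearIndependent_iff] at h1
    have h3 := h1 (fun j => γ j - γ' j) (by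
      simp only [sub_smul, Finset.sum_sub_distrib]
      rw [sub_eq_zero]
      exact h2)
    funext j
    exact sub_eq_zero.1 (h3 j)
  have hbij : Function.Bijective f := by
    apply Function.Injective.bijective_of_nat_card_le hinj
    rw [card_G (by positivity), Nat.card_fun, card_G (by positivity), ← pow_mul, Nat.card_fin]
    apply le_of_eq
    ring
  exact ⟨Equiv.ofBijective f hbij, fun γ => rfl⟩

end Pool.Agent.Helper53.PZ
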