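import Pool.Agent.Helper53.PZ4

set_option autoImplicit false
set_option linter.unusedSectionVars false

open Polynomial

namespace Pool.Agent.Helper53.PZ

variable {K : Type*} [Field K] [CharP K 2] [IsAlgClosed K]

lemma tr_sum (m n : ℕ) {ι : Type*} (s : Finset ι) (f : ι → K) :
    tr m n (∑ i ∈ s, f i) = ∑ i ∈ s, tr m n (f i) := by
  classical
  induction s using Finset.induction_on with
  | empty => simp [tr_zero]
  | insert a s ha ih => rw [Finset.sum_insert ha, Finset.sum_insert ha, tr_add, ih]

/-- the dual coordinates -/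
lemma dual_bijective {k a b c : ℕ} (hk : 0 < k) (ha : 0 < a) (hb : 0 < b) (hc : 0 < c)
    (hab : a.Coprime b) (hac : a.Coprime c)
    {α : Fin a → K} (hα : ∀ i, α i ∈ G K (k * a)) (hlin : LinearIndependent (G K k) α) :
    ∃ e : G K (k * (a * b)) ≃ (Fin a → G K (k * b)),
      ∀ u j, ((e u) j : K) = tr (k * (b * c)) a (u * α j) := by
  have habc : a.Coprime (b * c) := Nat.Coprime.mul_right hab hac
  obtain ⟨e0, he0⟩ := comb_bijective hk ha (Nat.mul_pos hb hc) habc hα hlin
  have hmem : ∀ (u : G K (k * (a * b))) (j : Fin a),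
      tr (k * (b * c)) a ((u : K) * α j) ∈ G K (k * b) := by
    intro u j
    have h1 : (u : K) * α j ∈ G K (k * (a * b)) :=
      mul_mem u.2 (G_mono ⟨b, by ring⟩ (hα j))
    have h2 : tr (k * (b * c)) a ((u : K) * α j) ∈ G K (k * (a * b)) := tr_mem' h1
    have h3 : tr (k * (b * c)) a ((u : K) * α j) ∈ G K (k * (b * c)) := by
      apply tr_mem
      exact G_mono ⟨c, by ring⟩ h1
    have h4 := G_inf_aux _ _ h2 h3
    have h5 : (k * (a * b)).gcd (k * (b * c)) = k * b := by
      rw [Nat.gcd_mul_left, mul_comm a b, Nat.gcd_mul_left, hac.gcd_eq_one, mul_one]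
    rwa [h5] at h4
  have : Finite (G K (k * b)) := finite_G (by positivity)
  have : Finite (G K (k * (a * b))) := finite_G (by positivity)
  let f : G K (k * (a * b)) → (Fin a → G K (k * b)) := fun u j => ⟨_, hmem u j⟩
  have hinj : Function.Injective f := by
    intro u u' huu
    by_contra hne
    have hne' : (u : K) - u' ≠ 0 := fun h => hne (Subtype.ext (sub_eq_zero.1 h))
    have h1 : ∀ j, tr (k * (b * c)) a (((u : K) - u') * α j) = 0 := by
      intro j
      have h2 : tr (k * (b * c)) a ((u : K) * α j) = tr (k * (b * c)) a ((u' : K) * α j) :=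
        congrArg (fun g : Fin a → G K (k * b) => (g j : K)) huu
      have h3 := tr_add (k * (b * c)) a (((u : K) - u') * α j) ((u' : K) * α j)
      rw [← add_mul, sub_add_cancel, h2] at h3
      exact (left_eq_add.1 (by rw [add_comm]; exact h3))
    have h2 : ∀ x : G K (k * (a * (b * c))), tr (k * (b * c)) a (x : K) = 0 := by
      intro x
      have h3 : (x : K) / ((u : K) - u') ∈ G K (k * (a * (b * c))) := by
        apply div_mem x.2
        apply sub_mem
        · exact G_mono ⟨c, by ring⟩ u.2
        · exact G_mono ⟨c, by ring⟩ u'.2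
      obtain ⟨γ, hγ⟩ := e0.surjective ⟨_, h3⟩
      have h4 : ∑ j, (γ j : K) * α j = (x : K) / ((u : K) - u') := by
        rw [← he0, hγ]
      have h5 : (x : K) = ∑ j, (γ j : K) * (((u : K) - u') * α j) := by
        have : (x : K) = ((u : K) - u') * ∑ j, (γ j : K) * α j := by
          rw [h4, mul_div_cancel₀ _ hne']
        rw [this, Finset.mul_sum]
        exact Finset.sum_congr rfl (fun j _ => by ring)
      rw [h5, tr_sum]
      apply Finset.sum_eq_zero
      intro j _
      rw [tr_smul a (γ j).2, h1 j, mul_zero]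
    have hbc : 0 < k * (b * c) := by positivity
    obtain ⟨h9, h10⟩ := card_tr_zero_le (K := K) (m := k * (b * c)) (n := a) hbc ha
    have h11 : Nat.card (G K (k * (a * (b * c)))) ≤ Nat.card {x : K // tr (k * (b * c)) a x = 0} := by
      apply Nat.card_le_card_of_injective (fun z : G K (k * (a * (b * c))) =>
        (⟨(z : K), h2 z⟩ : {x : K // tr (k * (b * c)) a x = 0}))
      intro x y hxy
      apply Subtype.ext
      exact congrArg (fun z : {x : K // tr (k * (b * c)) a x = 0} => (z : K)) hxy
    rw [card_G (by positivity)] at h11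
    have h12 : 2 ^ ((k * (b * c)) * (a - 1)) < 2 ^ (k * (a * (b * c))) := by
      apply Nat.pow_lt_pow_right (by norm_num)
      have : k * (a * (b * c)) = (k * (b * c)) * a := by ring
      rw [this]
      exact Nat.mul_lt_mul_of_pos_left (by omega) hbc
    omega
  have hbij : Function.Bijective f := by
    apply Function.Injective.bijective_of_nat_card_le hinj
    rw [card_G (by positivity), Nat.card_fun, card_G (by positivity), ← pow_mul, Nat.card_fin]
    apply le_of_eq
    ring
  exact ⟨Equiv.ofBijective f hbij, fun u j => rfl⟩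

/-- The orthogonal pairs. -/
lemma card_pairs {k a b c : ℕ} (hk : 0 < k) (ha : 0 < a) (hb : 0 < b) (hc : 0 < c)
    (hab : a.Coprime b) (hac : a.Coprime c) :
    Nat.card {x : G K (k * (a * b)) × G K (k * (a * c)) //
        tr (k * (b * c)) a ((x.1 : K) * x.2) = 0} =
      Nat.card {x : (Fin a → G K (k * b)) × (Fin a → G K (k * c)) //
        ∑ j, (x.2 j : K) * (x.1 j : K) = 0} := by
  obtain ⟨α, hα, hlin⟩ := exists_basis K hk ha
  obtain ⟨e1, he1⟩ := dual_bijective hk ha hb hc hab hac hα hlin
  obtain ⟨e2, he2⟩ := comb_bijective hk ha hc hac hα hlin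
  apply Nat.card_congr
  refine Equiv.subtypeEquiv (Equiv.prodCongr e1 e2.symm) ?_
  rintro ⟨u, w⟩
  simp only [Equiv.prodCongr_apply, Prod.map]
  obtain ⟨γ, rfl⟩ := e2.surjective w
  rw [Equiv.symm_apply_apply, he2]
  simp only [he1]
  rw [Finset.mul_sum, tr_sum]
  have : ∑ i, tr (k * (b * c)) a ((u : K) * ((γ i : K) * α i)) =
      ∑ j, (γ j : K) * tr (k * (b * c)) a ((u : K) * α j) := by
    apply Finset.sum_congr rfl
    intro j _
    rw [← tr_smul a (G_mono (show k * c ∣ k * (b * c) from ⟨b, by ring⟩) (γ j).2)]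
    congr 1
    ring
  rw [this]

end Pool.Agent.Helper53.PZ
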