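import Pool.Agent.Helper53.PZ5

set_option autoImplicit false
set_option linter.unusedSectionVars false

open Polynomial

namespace Pool.Agent.Helper53.PZ

/-- The number of `a`-tuples of vectors of rank `r` in a space with `q ^ b` elements, as a
polynomial in `q`. -/
noncomputable def Npoly (b : ℕ) : ℕ → ℕ → ℤ[X]
  | 0, 0 => 1
  | 0, _ + 1 => 0
  | a + 1, 0 => Npoly b a 0
  | a + 1, r + 1 => Npoly b a (r + 1) * X ^ (r + 1) + Npoly b a r * (X ^ b - X ^ r)

lemma Npoly_lt (b : ℕ) : ∀ a r, a < r → Npoly b a r = 0
  | 0, 0, h => by omega
  | 0, r + 1, _ => rfl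
  | a + 1, 0, h => by omega
  | a + 1, r + 1, h => by
    rw [Npoly, Npoly_lt b a (r + 1) (by omega), Npoly_lt b a r (by omega)]
    ring

lemma Npoly_self (b a : ℕ) : Npoly b a a = ∏ i ∈ Finset.range a, (X ^ b - X ^ i) := by
  induction a with
  | zero => rfl
  | succ a ih =>
    rw [Npoly, Npoly_lt b a (a + 1) (by omega), ih, Finset.prod_range_succ]
    ring

section

variable {F V : Type*} [Field F] [Finite F] [AddCommGroup V] [Module F V] [Finite V]

/-- the rank of a tuple -/
noncomputable def rk (F : Type*) {V : Type*} [Field F] [AddCommGroup V] [Module F V] {a : ℕ}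
    (β : Fin a → V) : ℕ := Module.finrank F (Submodule.span F (Set.range β))

lemma rk_cons {a : ℕ} (x : V) (β : Fin a → V) :
    (x ∈ Submodule.span F (Set.range β) → rk F (Fin.cons x β : Fin (a + 1) → V) = rk F β) ∧
    (x ∉ Submodule.span F (Set.range β) → rk F (Fin.cons x β : Fin (a + 1) → V) = rk F β + 1) := by
  have : Module.Finite F V := Module.Finite.of_finite
  constructor
  · intro hx
    rw [rk, rk, Fin.range_cons, Submodule.span_insert_eq_span hx]
  · intro hx
    rw [rk, rk, Fin.range_cons, Submodule.span_insert, sup_comm]
    exact Submodule.finrank_sup_span_singleton hx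

lemma card_mem_span (q : ℕ) (hq : Nat.card F = q) {a : ℕ} (β : Fin a → V) :
    Nat.card {x : V // x ∈ Submodule.span F (Set.range β)} = q ^ rk F β := by
  have : Module.Finite F V := Module.Finite.of_finite
  rw [← hq, rk]
  exact Module.natCard_eq_pow_finrank

lemma card_rank (q b : ℕ) (hq : Nat.card F = q) (hV : Nat.card V = q ^ b) (a r : ℕ) :
    (Nat.card {β : Fin a → V // rk F β = r} : ℤ) = (Npoly b a r).eval (q : ℤ) := by
  classical
  have : Fintype V := Fintype.ofFinite V
  induction a generalizing r with
  | zero =>
    have h0 : ∀ β : Fin 0 → V, rk F β = 0 := by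
      intro β
      rw [rk, Set.range_eq_empty, Submodule.span_empty, finrank_bot]
    cases r with
    | zero =>
      have : Nat.card {β : Fin 0 → V // rk F β = 0} = 1 := by
        rw [Nat.card_eq_one_iff_unique]
        refine ⟨⟨?_⟩, ⟨⟨Fin.elim0, h0 _⟩⟩⟩
        rintro ⟨x, _⟩ ⟨y, _⟩
        apply Subtype.ext
        exact Subsingleton.elim _ _
      rw [this, Npoly]
      simp
    | succ r =>
      have : IsEmpty {β : Fin 0 → V // rk F β = r + 1} := by
        refine ⟨?_⟩
        rintro ⟨x, hx⟩
        rw [h0] at hx
        omega
      rw [Nat.card_of_isEmpty, Npoly]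
      simp
  | succ a ih =>
    -- the number of extensions of a tuple
    have hsum : ∀ r, (Nat.card {β : Fin (a + 1) → V // rk F β = r} : ℤ) =
        ∑ β : Fin a → V, (Nat.card {x : V // rk F (Fin.cons x β : Fin (a + 1) → V) = r} : ℤ) := by
      intro r
      have e : {β : Fin (a + 1) → V // rk F β = r} ≃
          (Σ β : Fin a → V, {x : V // rk F (Fin.cons x β : Fin (a + 1) → V) = r}) := by
        refine {
          toFun := fun β => ⟨Fin.tail β.1, ⟨β.1 0, by rw [Fin.cons_self_tail]; exact β.2⟩⟩
          invFun := fun x => ⟨Fin.cons x.2.1 x.1, x.2.2⟩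
          left_inv := fun β => by
            apply Subtype.ext
            simp
          right_inv := fun x => rfl }
      rw [Nat.card_congr e, Nat.card_sigma]
      push_cast
      rfl
    have hcard : ∀ (β : Fin a → V), ∀ r,
        (Nat.card {x : V // rk F (Fin.cons x β : Fin (a + 1) → V) = r} : ℤ) =
          (if rk F β = r then (q : ℤ) ^ r else 0) +
          (if rk F β + 1 = r then (q : ℤ) ^ b - (q : ℤ) ^ (r - 1) else 0) := by
      intro β r
      have h1 := card_mem_span q hq β
      have h2 : Nat.card {x : V // x ∉ Submodule.span F (Set.range β)} = q ^ b - q ^ rk F β := by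
        have := Nat.card_congr (Equiv.sumCompl (fun x : V => x ∈ Submodule.span F (Set.range β)))
        rw [Nat.card_sum, h1, hV] at this
        omega
      have hle : q ^ rk F β ≤ q ^ b := by
        rw [← h1, ← hV]
        exact Nat.card_le_card_of_injective _ Subtype.val_injective
      by_cases hr : rk F β = r
      · rw [if_pos hr, if_neg (by omega), add_zero]
        have e : {x : V // rk F (Fin.cons x β : Fin (a + 1) → V) = r} ≃
            {x : V // x ∈ Submodule.span F (Set.range β)} := by
          refine Equiv.subtypeEquivRight (fun x => ?_)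
          constructor
          · intro h
            by_contra hx
            rw [(rk_cons x β).2 hx] at h
            omega
          · intro h
            rw [(rk_cons x β).1 h, hr]
        rw [Nat.card_congr e, h1, hr]
        push_cast
        rfl
      · by_cases hr' : rk F β + 1 = r
        · rw [if_neg hr, if_pos hr', zero_add]
          have e : {x : V // rk F (Fin.cons x β : Fin (a + 1) → V) = r} ≃
              {x : V // x ∉ Submodule.span F (Set.range β)} := by
            refine Equiv.subtypeEquivRight (fun x => ?_)
            constructor
            · intro h hx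
              rw [(rk_cons x β).1 hx] at h
              omega
            · intro h
              rw [(rk_cons x β).2 h, hr']
          rw [Nat.card_congr e, h2, Nat.cast_sub hle]
          have : r - 1 = rk F β := by omega
          rw [this]
          push_cast
          rfl
        · rw [if_neg hr, if_neg hr', add_zero]
          have : IsEmpty {x : V // rk F (Fin.cons x β : Fin (a + 1) → V) = r} := by
            refine ⟨?_⟩
            rintro ⟨x, hx⟩
            by_cases hmem : x ∈ Submodule.span F (Set.range β)
            · rw [(rk_cons x β).1 hmem] at hx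
              exact hr hx
            · rw [(rk_cons x β).2 hmem] at hx
              exact hr' hx
          rw [Nat.card_of_isEmpty]
          rfl
    have hcount : ∀ r, ((Finset.univ.filter fun β : Fin a → V => rk F β = r).card : ℤ) =
        (Npoly b a r).eval (q : ℤ) := by
      intro r
      rw [← ih r, Nat.card_eq_fintype_card, Fintype.card_subtype]
    rw [hsum]
    simp only [hcard]
    rw [Finset.sum_add_distrib, ← Finset.sum_filter, ← Finset.sum_filter, Finset.sum_const,
      Finset.sum_const, nsmul_eq_mul, nsmul_eq_mul, hcount]
    cases r with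
    | zero =>
      have : (Finset.univ.filter fun β : Fin a → V => rk F β + 1 = 0) = ∅ := by
        apply Finset.filter_eq_empty_iff.2
        intro β _
        omega
      rw [this, Npoly]
      simp
    | succ r =>
      have : (Finset.univ.filter fun β : Fin a → V => rk F β + 1 = r + 1) =
          (Finset.univ.filter fun β : Fin a → V => rk F β = r) := by
        apply Finset.filter_congr
        intro β _
        omega
      rw [this, hcount, Npoly]
      simp

lemma rk_le {a : ℕ} (β : Fin a → V) : rk F β ≤ a := by
  have h1 := finrank_range_le_card (R := F) β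
  rw [Fintype.card_fin] at h1
  exact h1

end

end Pool.Agent.Helper53.PZ
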