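import Pool.Agent.Helper53.PZ6

set_option autoImplicit false
set_option linter.unusedSectionVars false

open Polynomial

namespace Pool.Agent.Helper53.PZ

variable {K : Type*} [Field K] [CharP K 2] [IsAlgClosed K]

lemma card_ker {k a b c : ℕ} (hk : 0 < k) (hb : 0 < b) (hc : 0 < c) (hbc : b.Coprime c)
    (β : Fin a → GM K k b) :
    Nat.card {γ : Fin a → G K (k * c) // ∑ j, (γ j : K) * (β j : K) = 0} =
      (2 ^ (k * c)) ^ (a - rk (G K k) β) := by
  classical
  have hfinC : Finite (G K (k * c)) := finite_G (by positivity)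
  have hfinV : Finite (GM K k b) := finite_G (K := K) (n := k * b) (by positivity)
  let C := G K (k * c)
  let L : (Fin a → C) →ₗ[C] K := Fintype.linearCombination C (fun j => (β j : K))
  have hL : ∀ γ, L γ = ∑ j, (γ j : K) * (β j : K) := by
    intro γ
    simp only [L, Fintype.linearCombination_apply]
    rfl
  have h1 : Nat.card {γ : Fin a → G K (k * c) // ∑ j, (γ j : K) * (β j : K) = 0} =
      Nat.card (LinearMap.ker L) := by
    apply Nat.card_congr
    refine Equiv.subtypeEquivRight (fun γ => ?_)
    rw [LinearMap.mem_ker, hL]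
  have hfd : Module.Finite C (Fin a → C) := inferInstance
  rw [h1, Module.natCard_eq_pow_finrank (K := C), card_G (by positivity)]
  congr 1
  have h2 := L.finrank_range_add_finrank_ker
  rw [Module.finrank_fin_fun] at h2
  -- the rank over `C`
  have h3 : Module.finrank C (LinearMap.range L) = rk (G K k) β := by
    obtain ⟨S, hS1, hS2, hS3⟩ := exists_linearIndependent (G K k) (Set.range β)
    have hSfin : Fintype S := Fintype.ofFinite S
    have h4 : rk (G K k) β = Fintype.card S := by
      rw [rk, ← hS2, finrank_span_set_eq_card hS3, Set.toFinset_card]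
    let v : S → K := fun i => ((i : GM K k b) : K)
    have h5 : LinearIndependent (G K k) v :=
      hS3.map' (GM K k b).subtype (Submodule.ker_subtype _)
    have h6 : LinearIndependent C v := LD hbc (fun i => (i : GM K k b).2) h5
    have h7 : LinearMap.range L = Submodule.span C (Set.range v) := by
      rw [Fintype.range_linearCombination]
      apply le_antisymm
      · rw [Submodule.span_le]
        rintro _ ⟨j, rfl⟩
        -- `β j` is in the `G k`-span of `S`
        have h8 : β j ∈ Submodule.span (G K k) S := by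
          rw [hS2]; exact Submodule.subset_span ⟨j, rfl⟩
        have h9 : ∀ x ∈ Submodule.span (G K k) S, (x : K) ∈ Submodule.span C (Set.range v) := by
          intro x hx
          induction hx using Submodule.span_induction with
          | mem x hx => exact Submodule.subset_span ⟨⟨x, hx⟩, rfl⟩
          | zero => exact zero_mem _
          | add x y _ _ h h' => exact add_mem h h'
          | smul r x _ h =>
            exact Submodule.smul_mem _ (⟨(r : K), G_mono (Dvd.intro c rfl) r.2⟩ : C) h
        exact h9 _ h8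
      · apply Submodule.span_mono
        rintro _ ⟨⟨x, hx⟩, rfl⟩
        obtain ⟨j, hj⟩ := hS1 hx
        exact ⟨j, congrArg Subtype.val hj⟩
    rw [h7, finrank_span_eq_card h6, h4]
  omega

/-- The polynomial giving the number of points. -/
noncomputable def Ppoly (a b c : ℕ) : ℤ[X] :=
  X ^ (b * c) * (X ^ (a * b + a * c) +
    ∑ r ∈ Finset.range (a + 1), Npoly b a r * X ^ (c * (a - r)))

/-- The number of orthogonal pairs. -/
lemma card_pairs' {k a b c : ℕ} (hk : 0 < k) (hb : 0 < b) (hc : 0 < c) (hbc : b.Coprime c) :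
    (Nat.card {x : (Fin a → G K (k * b)) × (Fin a → G K (k * c)) //
        ∑ j, (x.2 j : K) * (x.1 j : K) = 0} : ℤ) =
      (∑ r ∈ Finset.range (a + 1), Npoly b a r * X ^ (c * (a - r))).eval ((2 : ℤ) ^ k) := by
  classical
  have hfinC : Finite (G K (k * c)) := finite_G (by positivity)
  have hfinV : Finite (GM K k b) := finite_G (K := K) (n := k * b) (by positivity)
  have hfinF : Finite (G K k) := finite_G (by positivity)
  have : Fintype (GM K k b) := Fintype.ofFinite _
  have e : {x : (Fin a → G K (k * b)) × (Fin a → G K (k * c)) //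
      ∑ j, (x.2 j : K) * (x.1 j : K) = 0} ≃
      (Σ β : Fin a → GM K k b, {γ : Fin a → G K (k * c) // ∑ j, (γ j : K) * (β j : K) = 0}) :=
    { toFun := fun x => ⟨x.1.1, ⟨x.1.2, x.2⟩⟩
      invFun := fun x => ⟨(x.1, x.2.1), x.2.2⟩
      left_inv := fun x => rfl
      right_inv := fun x => rfl }
  rw [Nat.card_congr e, Nat.card_sigma]
  push_cast
  simp only [card_ker hk hb hc hbc]
  have h1 : ∀ β : Fin a → GM K k b, rk (G K k) β ∈ Finset.range (a + 1) := fun β =>
    Finset.mem_range.2 (Nat.lt_succ_of_le (rk_le β))
  rw [← Finset.sum_fiberwise_of_maps_to (fun β _ => h1 β), eval_finsetSum]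
  apply Finset.sum_congr rfl
  intro r _
  have h2 : ∀ β ∈ Finset.univ.filter (fun β : Fin a → GM K k b => rk (G K k) β = r),
      ((((2 ^ (k * c)) ^ (a - rk (G K k) β) : ℕ)) : ℤ) = ((2 : ℤ) ^ k) ^ (c * (a - r)) := by
    intro β hβ
    rw [(Finset.mem_filter.1 hβ).2]
    push_cast
    rw [← pow_mul, ← pow_mul, mul_assoc]
  rw [Finset.sum_congr rfl h2, Finset.sum_const, nsmul_eq_mul, eval_mul, eval_pow, eval_X]
  congr 1
  have h3 : Nat.card (GM K k b) = (2 ^ k) ^ b := by
    rw [← pow_mul]
    exact card_G (K := K) (n := k * b) (by positivity)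
  have h4 := card_rank (F := G K k) (V := GM K k b) (2 ^ k) b (card_G hk.ne') h3 a r
  rw [Nat.card_eq_fintype_card, Fintype.card_subtype] at h4
  rw [h4]
  push_cast
  rfl

end Pool.Agent.Helper53.PZ
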