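import Pool.Agent.Helper53.PZ7

set_option autoImplicit false
set_option linter.unusedSectionVars false

open Polynomial

namespace Pool.Agent.Helper53.PZ

variable {K : Type*} [Field K] [CharP K 2] [IsAlgClosed K]

lemma card_count {k a b c : ℕ} (hk : 0 < k) (ha : 0 < a) (hb : 0 < b) (hc : 0 < c)
    (hab : a.Coprime b) (hac : a.Coprime c) (hbc : b.Coprime c) :
    (Nat.card {x : (G K (k * (a * b)) × G K (k * (a * c))) ×
        (G K (k * (b * c)) × G K (k * (b * c) * a)) //
        (x.2.2 : K) ^ 2 + x.2.2 + (x.1.1 : K) * x.1.2 * x.2.1 = 0} : ℤ) =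
      (Ppoly a b c).eval ((2 : ℤ) ^ k) := by
  classical
  have f1 : Finite (G K (k * (a * b))) := finite_G (by positivity)
  have f2 : Finite (G K (k * (a * c))) := finite_G (by positivity)
  have f3 : Finite (G K (k * (b * c))) := finite_G (by positivity)
  have f4 : Finite (G K (k * (b * c) * a)) := finite_G (by positivity)
  have : Fintype (G K (k * (a * b)) × G K (k * (a * c))) := Fintype.ofFinite _
  have hv : ∀ x : G K (k * (a * b)) × G K (k * (a * c)),
      (x.1 : K) * x.2 ∈ G K (k * (b * c) * a) := fun x =>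
    mul_mem (G_mono ⟨c, by ring⟩ x.1.2) (G_mono ⟨b, by ring⟩ x.2.2)
  have e : {x : (G K (k * (a * b)) × G K (k * (a * c))) ×
        (G K (k * (b * c)) × G K (k * (b * c) * a)) //
        (x.2.2 : K) ^ 2 + x.2.2 + (x.1.1 : K) * x.1.2 * x.2.1 = 0} ≃
      (Σ x : G K (k * (a * b)) × G K (k * (a * c)), (Phi (k * (b * c)) a ⟨_, hv x⟩).ker) :=
    { toFun := fun x => ⟨x.1.1, ⟨x.1.2, by
        rw [AddMonoidHom.mem_ker]
        apply Subtype.ext
        exact x.2⟩⟩
      invFun := fun x => ⟨(x.1, x.2.1), by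
        have := x.2.2
        rw [AddMonoidHom.mem_ker] at this
        exact congrArg Subtype.val this⟩
      left_inv := fun x => rfl
      right_inv := fun x => rfl }
  rw [Nat.card_congr e, Nat.card_sigma]
  have h1 : ∀ x : G K (k * (a * b)) × G K (k * (a * c)),
      Nat.card (Phi (k * (b * c)) a ⟨_, hv x⟩).ker = 2 ^ (k * (b * c)) * (1 +
        (if tr (k * (b * c)) a ((x.1 : K) * x.2) = 0 then 1 else 0)) := by
    intro x
    have h2 := card_Phi (k * (b * c)) a (by positivity) ha ⟨_, hv x⟩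
    split_ifs with h3
    · rw [h2.1 h3]; ring
    · rw [h2.2 h3]; ring
  simp only [h1]
  rw [← Finset.mul_sum, Finset.sum_add_distrib, Finset.sum_const, Finset.card_univ,
    Finset.sum_boole, ← Fintype.card_subtype, ← Nat.card_eq_fintype_card, ← Nat.card_eq_fintype_card,
    Nat.card_prod, card_G (by positivity), card_G (by positivity), card_pairs hk ha hb hc hab hac]
  push_cast
  rw [card_pairs' hk hb hc hbc, Ppoly]
  simp only [eval_mul, eval_add, eval_pow, eval_X, smul_eq_mul, mul_one]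
  rw [← pow_mul, ← pow_mul, ← pow_add, mul_add k]
  push_cast
  rfl

/-- The polynomial: a product of low degree plus a multiple of `X ^ c`. -/
lemma Ppoly_eq {a b c : ℕ} (ha : 0 < a) : ∃ R : ℤ[X],
    Ppoly a b c = X ^ (b * c) * (∏ i ∈ Finset.range a, (X ^ b - X ^ i)) + X ^ (b * c + c) * R := by
  obtain ⟨a, rfl⟩ : ∃ a', a = a' + 1 := ⟨a - 1, by omega⟩
  refine ⟨X ^ ((a + 1) * b + a * c) + ∑ r ∈ Finset.range (a + 1), Npoly b (a + 1) r *
    X ^ (c * (a - r)), ?_⟩
  rw [Ppoly, Finset.sum_range_succ, Npoly_self, Nat.sub_self, Nat.mul_zero, pow_zero, mul_one]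
  have h1 : ∑ r ∈ Finset.range (a + 1), Npoly b (a + 1) r * (X : ℤ[X]) ^ (c * (a + 1 - r)) =
      X ^ c * ∑ r ∈ Finset.range (a + 1), Npoly b (a + 1) r * X ^ (c * (a - r)) := by
    rw [Finset.mul_sum]
    apply Finset.sum_congr rfl
    intro r hr
    rw [Finset.mem_range] at hr
    have : c * (a + 1 - r) = c + c * (a - r) := by
      obtain ⟨m, hm⟩ : ∃ m, a = r + m := ⟨a - r, by omega⟩
      subst hm
      have e1 : r + m + 1 - r = m + 1 := by omega
      have e2 : r + m - r = m := by omega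
      rw [e1, e2]; ring
    rw [this, pow_add]; ring
  rw [h1]
  have h2 : (X : ℤ[X]) ^ ((a + 1) * b + (a + 1) * c) = X ^ c * X ^ ((a + 1) * b + a * c) := by
    rw [← pow_add]; congr 1; ring
  rw [h2, pow_add X (b * c) c]
  ring

end Pool.Agent.Helper53.PZ
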