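import Pool.Agent.Helper53.PZ8

set_option autoImplicit false
set_option linter.unusedSectionVars false

open Polynomial

namespace Pool.Agent.Helper53.PZ

/-- Power sums determine the coefficients. -/
lemma coeff_eq_count (P : ℤ[X]) (A B : Multiset ℂ)
    (h : ∀ k : ℕ, 0 < k → ((P.eval ((2:ℤ)^k) : ℤ) : ℂ) =
      (B.map (fun b => b ^ k)).sum - (A.map (fun a => a ^ k)).sum) (e : ℕ) (he : e ∈ P.support) :
    P.coeff e = (B.count ((2:ℂ)^e) : ℤ) - (A.count ((2:ℂ)^e) : ℤ) := by
  classical
  have hinj : Function.Injective (fun e : ℕ => (2:ℂ)^e) := by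
    intro m n hmn
    have h1 : ((2:ℕ)^m : ℕ) = (2:ℕ)^n := by
      have : (((2:ℕ)^m : ℕ) : ℂ) = (((2:ℕ)^n : ℕ) : ℂ) := by push_cast; exact hmn
      exact_mod_cast this
    exact Nat.pow_right_injective le_rfl h1
  set S : Finset ℂ := P.support.image (fun e : ℕ => (2:ℂ)^e) ∪ (A.toFinset ∪ B.toFinset) with hS
  set m : ℂ → ℂ := fun x => (B.count x : ℂ) - (A.count x : ℂ) -
    ∑ e ∈ P.support, if (2:ℂ)^e = x then ((P.coeff e : ℤ) : ℂ) else 0 with hm
  have hli := (linearIndependent_monoidHom (Multiplicative ℕ) ℂ)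
  have hli2 : LinearIndependent ℂ (fun x : ℂ => (fun k : Multiplicative ℕ => x ^ k.toAdd)) := by
    exact hli.comp (fun x : ℂ => powersHom ℂ x) (powersHom ℂ).injective
  have key : ∀ k : ℕ, 0 < k → ∑ x ∈ S, m x * x ^ k = 0 := by
    intro k hk
    have e1 : ∑ x ∈ S, (B.count x : ℂ) * x ^ k = (B.map (fun b => b ^ k)).sum := by
      rw [Finset.sum_multiset_map_count]
      simp only [nsmul_eq_mul]
      symm
      apply Finset.sum_subset
      · intro x hx
        rw [hS]; simp only [Finset.mem_union]; exact Or.inr (Or.inr hx)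
      · intro x _ hx
        rw [Multiset.mem_toFinset] at hx
        rw [Multiset.count_eq_zero_of_notMem hx]; simp
    have e2 : ∑ x ∈ S, (A.count x : ℂ) * x ^ k = (A.map (fun b => b ^ k)).sum := by
      rw [Finset.sum_multiset_map_count]
      simp only [nsmul_eq_mul]
      symm
      apply Finset.sum_subset
      · intro x hx
        rw [hS]; simp only [Finset.mem_union]; exact Or.inr (Or.inl hx)
      · intro x _ hx
        rw [Multiset.mem_toFinset] at hx
        rw [Multiset.count_eq_zero_of_notMem hx]; simp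
    have e3 : ∑ x ∈ S, (∑ e ∈ P.support, if (2:ℂ)^e = x then ((P.coeff e : ℤ) : ℂ) else 0) * x ^ k
        = ((P.eval ((2:ℤ)^k) : ℤ) : ℂ) := by
      simp only [Finset.sum_mul]
      rw [Finset.sum_comm]
      rw [eval_eq_sum, Polynomial.sum]
      push_cast
      apply Finset.sum_congr rfl
      intro e he
      simp only [ite_mul, zero_mul]
      rw [Finset.sum_ite_eq, if_pos]
      · rw [← pow_mul, ← pow_mul, mul_comm e k]
      · rw [hS]; simp only [Finset.mem_union, Finset.mem_image]
        exact Or.inl ⟨e, he, rfl⟩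
    simp only [hm, sub_mul, Finset.sum_sub_distrib]
    rw [e1, e2, e3, h k hk]
    ring
  have h2 : ∀ x ∈ S, m x * x = 0 := by
    rw [linearIndependent_iff'] at hli2
    refine hli2 S (fun x => m x * x) ?_
    funext k
    rw [Finset.sum_apply]
    have := key (k.toAdd + 1) (by omega)
    simp only [Pi.smul_apply, Pi.zero_apply, smul_eq_mul]
    rw [← this]
    apply Finset.sum_congr rfl
    intro x _
    ring
  have h3 := h2 ((2:ℂ)^e) (by
    rw [hS]; simp only [Finset.mem_union, Finset.mem_image]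
    exact Or.inl ⟨e, he, rfl⟩)
  have h4 : m ((2:ℂ)^e) = 0 := by
    rcases mul_eq_zero.mp h3 with h | h
    · exact h
    · exact absurd h (pow_ne_zero _ two_ne_zero)
  have h5 : ∑ e' ∈ P.support, (if (2:ℂ)^e' = (2:ℂ)^e then ((P.coeff e' : ℤ) : ℂ) else 0) =
      ((P.coeff e : ℤ) : ℂ) := by
    rw [Finset.sum_eq_single e]
    · simp
    · intro e' _ hne
      rw [if_neg]
      intro h; exact hne (hinj h)
    · intro h; exact absurd he h
  simp only [hm] at h4
  rw [h5] at h4
  have : (((B.count ((2:ℂ)^e) : ℤ) - (A.count ((2:ℂ)^e) : ℤ) : ℤ) : ℂ) = ((P.coeff e : ℤ) : ℂ) := by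
    push_cast
    linear_combination h4
  exact_mod_cast this.symm

/-- The `ℓ¹`-type bound. -/
lemma functional_bound (P : ℤ[X]) (A B : Multiset ℂ)
    (h : ∀ k : ℕ, 0 < k → ((P.eval ((2:ℤ)^k) : ℤ) : ℂ) =
      (B.map (fun b => b ^ k)).sum - (A.map (fun a => a ^ k)).sum)
    (s : ℕ → ℤ) (hs : ∀ e, |s e| ≤ 1) :
    P.sum (fun e c => s e * c) ≤ (Multiset.card A + Multiset.card B : ℕ) := by
  classical
  have hinj : Function.Injective (fun e : ℕ => (2:ℂ)^e) := by
    intro m n hmn
    have h1 : ((2:ℕ)^m : ℕ) = (2:ℕ)^n := by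
      have : (((2:ℕ)^m : ℕ) : ℂ) = (((2:ℕ)^n : ℕ) : ℂ) := by push_cast; exact hmn
      exact_mod_cast this
    exact Nat.pow_right_injective le_rfl h1
  have h1 : ∀ M : Multiset ℂ, ∑ e ∈ P.support, M.count ((2:ℂ)^e) ≤ Multiset.card M := by
    intro M
    have e1 : ∑ e ∈ P.support, M.count ((2:ℂ)^e) =
        ∑ x ∈ P.support.image (fun e : ℕ => (2:ℂ)^e), M.count x := by
      rw [Finset.sum_image]
      intro x _ y _ hxy
      exact hinj hxy
    rw [e1, ← Multiset.sum_count_eq_card (s := P.support.image (fun e : ℕ => (2:ℂ)^e) ∪ M.toFinset)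
      (m := M)]
    · exact Finset.sum_le_sum_of_subset Finset.subset_union_left
    · intro a ha
      rw [Finset.mem_union]; right; rwa [Multiset.mem_toFinset]
  rw [Polynomial.sum]
  calc ∑ e ∈ P.support, s e * P.coeff e
      ≤ ∑ e ∈ P.support, ((A.count ((2:ℂ)^e) : ℤ) + (B.count ((2:ℂ)^e) : ℤ)) := by
        apply Finset.sum_le_sum
        intro e he
        have h2 := coeff_eq_count P A B h e he
        calc s e * P.coeff e ≤ |s e * P.coeff e| := le_abs_self _
          _ = |s e| * |P.coeff e| := abs_mul _ _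
          _ ≤ 1 * |P.coeff e| := mul_le_mul_of_nonneg_right (hs e) (abs_nonneg _)
          _ = |P.coeff e| := one_mul _
          _ ≤ _ := by
            rw [h2, abs_le]
            constructor <;> omega
    _ = ((∑ e ∈ P.support, A.count ((2:ℂ)^e) : ℕ) : ℤ) +
        ((∑ e ∈ P.support, B.count ((2:ℂ)^e) : ℕ) : ℤ) := by
        rw [Finset.sum_add_distrib]; push_cast; rfl
    _ ≤ _ := by
        have := h1 A
        have := h1 B
        rw [← Nat.cast_add]
        exact Int.ofNat_le.mpr (add_le_add (h1 A) (h1 B))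

end Pool.Agent.Helper53.PZ
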